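import Pool.Agent.Q288.RB.Fin2
import Pool.Agent.Q288.RB.Meas
import Pool.Agent.Q288.RB.Good
import Pool.Agent.Q288.RB.Shift
import Pool.Agent.Q288.RB.Cmp
import Pool.Agent.Q288.RB.One
import Pool.Agent.Q288.RB.Duh
import Pool.Agent.Q288.RB.Lin
import Pool.Agent.Q288.RB.Mul
import Pool.Agent.Q288.RB.Pop
import Pool.Agent.Q288.RB.Rv
import Pool.Agent.Q288.RB.Up
import Pool.Agent.Q288.RB.Yc
import Pool.Agent.Q288.RB.Low

/-!
# Population growth of the reinforced branching process under condensation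

The process is built from an iid sequence `W` of inputs `(e, u, v, f)` (a standard exponential
clock, two uniform variables on `[0,1]` and a fitness of law `μ`) by its jump chain and its
exponential holding times: see the definitions in `Pool.Agent.Q288.RB.Stm`.  In the condensation
case and under regular variation of `μ` at `1` with index `α > 1`,
`log N(t) = λ t - α log t + o(log t)` in probability, with `λ = γ`.
-/

open MeasureTheory ProbabilityTheory Filter Set
open scoped ENNReal Topology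

namespace Pool.Agent.Results.MP_1a55bc_pr.CondensationGrowth

open Pool.Agent.Q288.RB

/-- Let `μ` be a probability measure on `(0,1)` with `μ (1-ε,1) = ε^α ℓ(ε)` for small `ε`, `ℓ`
slowly varying at `0` and `α > 1`, let `β, γ ∈ (0,1]`, `β + γ ≥ 1` and
`∫ dμ(x)/(1-x) < (β+γ)/β`.  For the reinforced branching process with population size
`N(t) = popW β γ W t`:
1. almost surely the birth times tend to infinity and `N(t)` is finite for all `t`;
2. `(log N(t) - γ t + α log t) / log t` tends to `0` in probability;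
3. `γ` is the only possible almost sure limit of `log N(t) / t`. -/
theorem result (μ : Measure ℝ) [IsProbabilityMeasure μ] (hμ : μ (Ioo 0 1)ᶜ = 0)
    (β γ : ℝ) (hβ : 0 < β) (hβ1 : β ≤ 1) (hγ : 0 < γ) (hγ1 : γ ≤ 1) (hβγ : 1 ≤ β + γ)
    (hcond : ∫⁻ x, ENNReal.ofReal (1 / (1 - x)) ∂μ < ENNReal.ofReal ((β + γ) / β))
    (α : ℝ) (hα : 1 < α) (ℓ : ℝ → ℝ) (hRV : RV μ α ℓ)
    (Ω : Type) [MeasurableSpace Ω] (P : Measure Ω) [IsProbabilityMeasure P]
    (W : ℕ → Ω → In) (hW : ∀ k, Measurable (W k)) (hind : iIndepFun W P)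
    (hlaw : ∀ k, P.map (W k) = nu μ) :
    (∀ᵐ ω ∂P, (∀ t, popW β γ W t ω < ⊤) ∧ Tendsto (fun k => timW β γ W k ω) atTop atTop) ∧
    (∀ ε : ℝ, 0 < ε → Tendsto (fun t : ℝ => P {ω | ε <
      |(Real.log (popW β γ W t ω).toReal - γ * t + α * Real.log t) / Real.log t|}) atTop (𝓝 0)) ∧
    (∀ lam : ℝ, (∀ᵐ ω ∂P, Tendsto (fun t : ℝ => Real.log (popW β γ W t ω).toReal / t) atTop
      (𝓝 lam)) → lam = γ) := by
  have hcmp := t_cmp t_meas t_good t_shift
  have hone := t_one t_meas t_good
  exact fin t_meas t_good t_shift t_pop t_rv (t_up t_good (t_lin hcmp hone t_duh) t_sub)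
    (t_low t_meas t_good (t_mul hcmp hone t_duh) t_yc t_pop) μ hμ β γ ⟨hβ, hβ1, hγ, hγ1, hβγ⟩
    hcond α hα ℓ hRV Ω P W hW hind hlaw

end Pool.Agent.Results.MP_1a55bc_pr.CondensationGrowth
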